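import Pool.Agent.Helper61.BT.Goals
import Pool.Agent.Helper53.VF.FRD

/-!
# Project BT, packet FRB: finite stabilizers of the cuts
-/

set_option autoImplicit false

namespace Pool.Agent.Helper23.BT

open Pool.Agent.Helper27.VF Pool.Agent.Helper61.BT

universe u

theorem frb (hLoc : LocStmt.{u}) (hOrc : OrcStmt.{u}) : FrbStmt.{u} := by
  classical
  intro A W _ _ G G₀ w p h k hk
  refine ⟨?_, ?_⟩
  · obtain ⟨_, 𝓕, hfin, hcov⟩ := hLoc A W G G₀ w p h k hk
    let D : Set W × Set W → Set W × Set W := fun f =>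
      if hf : ∃ g : A, tr g f ∈ DD A G p k then tr (Classical.choose hf) f else f
    refine ⟨D '' 𝓕 ∩ DD A G p k, (hfin.image D).inter_of_left _, Set.inter_subset_right, ?_⟩
    intro d hd
    obtain ⟨f, hf, g, hg⟩ := hcov d hd.1
    have hex : ∃ g : A, tr g f ∈ DD A G p k := ⟨g, hg ▸ hd⟩
    have hDf : D f = tr (Classical.choose hex) f := dif_pos hex
    have hDm : D f ∈ DD A G p k := by
      rw [hDf]
      exact Classical.choose_spec hex
    have he : d = tr (g * (Classical.choose hex)⁻¹) (D f) := by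
      rw [hDf, tr_tr, inv_mul_cancel_right]
      exact hg
    refine ⟨D f, ⟨⟨f, hf, rfl⟩, hDm⟩, g * (Classical.choose hex)⁻¹, ?_, he⟩
    exact hOrc A W G G₀ w p h k hk _ (D f) hDm (he ▸ hd)
  · intro d hd
    obtain ⟨v, hv⟩ := Pool.Agent.Helper53.VF.sep_nonempty h hd
    have hinj : Set.InjOn (fun g : A => g • v) {g : A | tr g d = d} := by
      intro g _ g' _ hgg
      have h1 : g • v = g' • v := hgg
      have h2 : (g'⁻¹ * g) • v = v := by
        rw [mul_smul, h1, inv_smul_smul]
      have h3 := h.free _ v h2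
      exact (inv_mul_eq_one.1 h3).symm
    refine Set.Finite.of_finite_image (hd.1.fin.subset ?_) hinj
    rintro _ ⟨g, hg, rfl⟩
    have h1 : g • v ∈ sep (tr g d) := by
      rw [sep_tr]
      exact ⟨v, hv, rfl⟩
    have hg2 : tr g d = d := hg
    rwa [hg2] at h1

end Pool.Agent.Helper23.BT
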